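import Mathlib

/-! Sets swept out by a flooding process on a finite graph given by the action of a symmetric
set of letters. -/

namespace Q27.Flood

open Finset

variable {V L : Type*}

/-- The neighbours of a set of vertices. -/
def nbrs (act : L → V → V) (A : Set V) : Set V := {x | ∃ t ∈ A, ∃ h, act h t = x}

/-- The highlighted sets. -/
def C (act : L → V → V) (y : V) : ℕ → Set V
  | 0 => {y}
  | 1 => nbrs act {y}
  | (i + 2) => nbrs act (C act y (i + 1)) \ C act y i

/-- Vertices reached by walks of a given length. -/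
def W (act : L → V → V) (y : V) : ℕ → Set V
  | 0 => {y}
  | (i + 1) => nbrs act (W act y i)

variable (act : L → V → V) (inv : L → L) (y : V)

theorem nbrs_mono {A B : Set V} (h : A ⊆ B) : nbrs act A ⊆ nbrs act B := by
  rintro x ⟨t, ht, g, rfl⟩
  exact ⟨t, h ht, g, rfl⟩

include inv in
theorem mem_nbrs_symm (hinv : ∀ h v, act (inv h) (act h v) = v) {h : L} {v : V} {A : Set V}
    (hv : act h v ∈ A) : v ∈ nbrs act A := ⟨act h v, hv, inv h, hinv h v⟩

include inv in
theorem W_mono2 (hinv : ∀ h v, act (inv h) (act h v) = v) [Nonempty L] (i : ℕ) :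
    W act y i ⊆ W act y (i + 2) := by
  induction i with
  | zero =>
    intro x hx
    obtain ⟨h⟩ := ‹Nonempty L›
    have hx' : x = y := hx
    subst hx'
    exact ⟨act h x, ⟨x, rfl, h, rfl⟩, inv h, hinv h x⟩
  | succ i ih => exact nbrs_mono act ih

include inv in
theorem W_mono (hinv : ∀ h v, act (inv h) (act h v) = v) [Nonempty L] (i k : ℕ) :
    W act y i ⊆ W act y (i + 2 * k) := by
  induction k with
  | zero => exact subset_rfl
  | succ k ih => exact ih.trans (W_mono2 act inv y hinv (i + 2 * k))

include inv in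
theorem C_eq_W (hinv : ∀ h v, act (inv h) (act h v) = v) [Nonempty L] (i : ℕ) :
    C act y i ⊆ W act y i ∧ C act y (i + 1) ⊆ W act y (i + 1) ∧
      C act y (i + 2) = W act y (i + 2) \ W act y i ∧
      C act y (i + 3) = W act y (i + 3) \ W act y (i + 1) := by
  induction i with
  | zero =>
    have h0 : C act y 0 = W act y 0 := rfl
    have h1 : C act y 1 = W act y 1 := rfl
    have h2 : C act y 2 = W act y 2 \ W act y 0 := rfl
    refine ⟨h0.subset, h1.subset, h2, ?_⟩
    apply Set.Subset.antisymm
    · rintro x ⟨⟨t, ht, g, rfl⟩, hx⟩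
      rw [h2] at ht
      exact ⟨⟨t, ht.1, g, rfl⟩, hx⟩
    · rintro x ⟨⟨t, ht, g, rfl⟩, hx⟩
      refine ⟨⟨t, ?_, g, rfl⟩, hx⟩
      rw [h2]
      refine ⟨ht, fun h => hx ?_⟩
      exact ⟨t, h, g, rfl⟩
  | succ i ih =>
    obtain ⟨a, b, c, d⟩ := ih
    refine ⟨b, by rw [c]; exact Set.sdiff_subset, d, ?_⟩
    apply Set.Subset.antisymm
    · rintro x ⟨⟨t, ht, g, rfl⟩, hx⟩
      have ht' : t ∈ C act y (i + 3) := ht
      rw [d] at ht'
      refine ⟨⟨t, ht'.1, g, rfl⟩, fun h => ?_⟩
      have hx' : act g t ∉ C act y (i + 2) := hx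
      rw [c] at hx'
      apply hx'
      refine ⟨h, fun h2 => ht'.2 ?_⟩
      exact mem_nbrs_symm act inv hinv h2
    · rintro x ⟨⟨t, ht, g, rfl⟩, hx⟩
      refine ⟨⟨t, ?_, g, rfl⟩, fun h => ?_⟩
      · have : t ∈ C act y (i + 3) := by
          rw [d]
          exact ⟨ht, fun h => hx ⟨t, h, g, rfl⟩⟩
        exact this
      · have h' : act g t ∈ C act y (i + 2) := h
        rw [c] at h'
        exact hx h'.1

include inv in
theorem C_sub_W (hinv : ∀ h v, act (inv h) (act h v) = v) [Nonempty L] (i : ℕ) :
    C act y i ⊆ W act y i := (C_eq_W act inv y hinv i).1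

include inv in
theorem C_disj (hinv : ∀ h v, act (inv h) (act h v) = v) [Nonempty L] (i k : ℕ) (x : V)
    (h1 : x ∈ C act y i) (h2 : x ∈ C act y (i + 2 * (k + 1))) : False := by
  have h3 := W_mono act inv y hinv i k (C_sub_W act inv y hinv i h1)
  have h4 : x ∈ C act y (i + 2 * k + 2) := h2
  rw [(C_eq_W act inv y hinv (i + 2 * k)).2.2.1] at h4
  exact h4.2 h3

include inv in
theorem C_disj' (hinv : ∀ h v, act (inv h) (act h v) = v) [Nonempty L] (i j : ℕ) (x : V)
    (h1 : x ∈ C act y i) (h2 : x ∈ C act y j) (hij : i % 2 = j % 2) : i = j := by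
  rcases lt_trichotomy i j with h | h | h
  · exfalso
    obtain ⟨k, hk⟩ : ∃ k, j = i + 2 * (k + 1) := ⟨(j - i) / 2 - 1, by omega⟩
    subst hk
    exact C_disj act inv y hinv i k x h1 h2
  · exact h
  · exfalso
    obtain ⟨k, hk⟩ : ∃ k, i = j + 2 * (k + 1) := ⟨(i - j) / 2 - 1, by omega⟩
    subst hk
    exact C_disj act inv y hinv j k x h2 h1

section Count

variable [Fintype V] [Fintype L]

open Classical in
/-- The number of highlighted edges from the `i`-th set to the next. -/
noncomputable def e (i : ℕ) : ℕ :=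
  ((univ : Finset (V × L)).filter (fun p => p.1 ∈ C act y i ∧ act p.2 p.1 ∈ C act y (i + 1))).card

open Classical in
/-- Number of vertices in the `i`-th set. -/
noncomputable def c (i : ℕ) : ℕ := ((univ : Finset V).filter (· ∈ C act y i)).card

include inv in
open Classical in
theorem back_eq (hinv : ∀ h v, act (inv h) (act h v) = v)
    (hinv2 : ∀ h, inv (inv h) = h) (i : ℕ) :
    ((univ : Finset (V × L)).filter
      (fun p => p.1 ∈ C act y (i + 1) ∧ act p.2 p.1 ∈ C act y i)).card = e act y i := by
  unfold e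
  refine Finset.card_bij' (fun p _ => (act p.2 p.1, inv p.2)) (fun p _ => (act p.2 p.1, inv p.2))
    ?_ ?_ ?_ ?_
  · intro p hp
    simp only [mem_filter, mem_univ, true_and] at hp ⊢
    refine ⟨hp.2, ?_⟩
    rw [hinv]
    exact hp.1
  · intro p hp
    simp only [mem_filter, mem_univ, true_and] at hp ⊢
    refine ⟨hp.2, ?_⟩
    rw [hinv]
    exact hp.1
  · intro p hp
    simp only [hinv, hinv2]
  · intro p hp
    simp only [hinv, hinv2]

include inv in
open Classical in
theorem count_succ (hinv : ∀ h v, act (inv h) (act h v) = v)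
    (hinv2 : ∀ h, inv (inv h) = h) (i : ℕ) :
    Fintype.card L * c act y (i + 1) = e act y i + e act y (i + 1) := by
  have h1 : Fintype.card L * c act y (i + 1) =
      (((univ : Finset (V × L)).filter (fun p => p.1 ∈ C act y (i + 1)))).card := by
    have : ((univ : Finset (V × L)).filter (fun p => p.1 ∈ C act y (i + 1))) =
        ((univ : Finset V).filter (· ∈ C act y (i + 1))) ×ˢ (univ : Finset L) := by
      ext p
      simp
    rw [this, Finset.card_product, c, Finset.card_univ, mul_comm]
  rw [h1, ← back_eq act inv y hinv hinv2 i, e]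
  have hd : Disjoint
      ((univ : Finset (V × L)).filter
        (fun p => p.1 ∈ C act y (i + 1) ∧ act p.2 p.1 ∈ C act y i))
      ((univ : Finset (V × L)).filter
        (fun p => p.1 ∈ C act y (i + 1) ∧ act p.2 p.1 ∈ C act y (i + 1 + 1))) := by
    rw [Finset.disjoint_filter]
    rintro p - ⟨_, h2⟩ ⟨_, h3⟩
    exact h3.2 h2
  rw [← Finset.card_union_of_disjoint hd]
  congr 1
  ext p
  simp only [mem_filter, mem_univ, true_and, mem_union]
  constructor
  · intro hp
    by_cases h : act p.2 p.1 ∈ C act y i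
    · exact Or.inl ⟨hp, h⟩
    · exact Or.inr ⟨hp, ⟨⟨p.1, hp, p.2, rfl⟩, h⟩⟩
  · rintro (h | h)
    · exact h.1
    · exact h.1

open Classical in
theorem count_zero : Fintype.card L = e act y 0 := by
  unfold e
  have : ((univ : Finset (V × L)).filter
      (fun p => p.1 ∈ C act y 0 ∧ act p.2 p.1 ∈ C act y (0 + 1))) =
        ({y} : Finset V) ×ˢ (univ : Finset L) := by
    ext p
    simp only [mem_filter, mem_univ, true_and, mem_product, mem_singleton, and_true]
    constructor
    · intro h
      exact h.1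
    · intro h
      exact ⟨h, ⟨p.1, h, p.2, rfl⟩⟩
  rw [this, Finset.card_product, Finset.card_univ, Finset.card_singleton, one_mul]

include inv in
theorem dvd_e (hinv : ∀ h v, act (inv h) (act h v) = v)
    (hinv2 : ∀ h, inv (inv h) = h) (i : ℕ) : Fintype.card L ∣ e act y i := by
  induction i with
  | zero => rw [← count_zero]
  | succ i ih =>
    have h := count_succ act inv y hinv hinv2 i
    have h2 : Fintype.card L ∣ e act y i + e act y (i + 1) := ⟨_, h.symm⟩
    exact (Nat.dvd_add_right ih).1 h2

omit [Fintype V] [Fintype L] in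
theorem nonempty_pred (i : ℕ) (h : (C act y (i + 1)).Nonempty) : (C act y i).Nonempty := by
  cases i with
  | zero => exact ⟨y, rfl⟩
  | succ i =>
    obtain ⟨x, ⟨t, ht, _⟩, _⟩ := h
    exact ⟨t, ht⟩

omit [Fintype V] [Fintype L] in
theorem nonempty_le (i j : ℕ) (hij : i ≤ j) (h : (C act y j).Nonempty) :
    (C act y i).Nonempty := by
  induction j with
  | zero =>
    have : i = 0 := by omega
    subst this
    exact h
  | succ j ih =>
    rcases Nat.lt_or_ge i (j + 1) with h1 | h1
    · exact ih (by omega) (nonempty_pred act y j h)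
    · have : i = j + 1 := by omega
      subst this
      exact h

include inv in
open Classical in
theorem e_ge (hinv : ∀ h v, act (inv h) (act h v) = v)
    (hinv2 : ∀ h, inv (inv h) = h) (i : ℕ) (h : (C act y (i + 1)).Nonempty) :
    Fintype.card L ≤ e act y i := by
  apply Nat.le_of_dvd _ (dvd_e act inv y hinv hinv2 i)
  unfold e
  rw [Finset.card_pos]
  obtain ⟨x, hx⟩ := h
  have hx2 : ∃ t ∈ C act y i, ∃ g, act g t = x := by
    cases i with
    | zero => exact hx
    | succ i => exact hx.1
  obtain ⟨t, ht, g, rfl⟩ := hx2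
  exact ⟨(t, g), by simp only [mem_filter, mem_univ, true_and]; exact ⟨ht, hx⟩⟩

include inv in
theorem sum_eq (hinv : ∀ h v, act (inv h) (act h v) = v)
    (hinv2 : ∀ h, inv (inv h) = h) (N : ℕ) :
    Fintype.card L * ∑ i ∈ range (N + 1), c act y i = 2 * ∑ i ∈ range N, e act y i + e act y N := by
  induction N with
  | zero =>
    have h0 : c act y 0 = 1 := by
      unfold c
      rw [Finset.card_eq_one]
      refine ⟨y, ?_⟩
      ext x
      simp only [mem_filter, mem_univ, true_and, mem_singleton]
      rfl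
    simp [h0, ← count_zero act y]
  | succ N ih =>
    rw [Finset.sum_range_succ, mul_add, ih, count_succ act inv y hinv hinv2 N,
      Finset.sum_range_succ]
    ring

include inv in
theorem sum_lower (hinv : ∀ h v, act (inv h) (act h v) = v)
    (hinv2 : ∀ h, inv (inv h) = h) [Nonempty L] (N : ℕ) (h : (C act y N).Nonempty) :
    2 * N ≤ ∑ i ∈ range (N + 1), c act y i := by
  have hd : 0 < Fintype.card L := Fintype.card_pos
  have h1 := sum_eq act inv y hinv hinv2 N
  have h2 : N * Fintype.card L ≤ ∑ i ∈ range N, e act y i := by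
    have : ∑ i ∈ range N, Fintype.card L ≤ ∑ i ∈ range N, e act y i := by
      apply Finset.sum_le_sum
      intro i hi
      have hi' := Finset.mem_range.1 hi
      exact e_ge act inv y hinv hinv2 i (nonempty_le act y (i + 1) N hi' h)
    simpa using this
  have h3 : Fintype.card L * (2 * N) ≤ Fintype.card L * ∑ i ∈ range (N + 1), c act y i := by
    rw [h1]
    nlinarith
  exact Nat.le_of_mul_le_mul_left h3 hd

omit [Fintype L] in
include inv in
open Classical in
theorem sum_upper (hinv : ∀ h v, act (inv h) (act h v) = v) [Nonempty L] (N : ℕ) :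
    ∑ i ∈ range N, c act y i ≤ 2 * Fintype.card V := by
  have h1 : ∑ i ∈ range N, c act y i =
      ((range N).sigma (fun i => (univ : Finset V).filter (· ∈ C act y i))).card := by
    rw [Finset.card_sigma]
    rfl
  rw [h1]
  have h2 : 2 * Fintype.card V = Fintype.card (Fin 2 × V) := by simp
  rw [h2, ← Finset.card_univ]
  apply Finset.card_le_card_of_injOn
    (fun p => ((⟨p.1 % 2, Nat.mod_lt _ (by norm_num)⟩ : Fin 2), p.2))
  · intro p _
    exact Finset.mem_coe.2 (Finset.mem_univ _)
  · rintro ⟨i, x⟩ hp ⟨j, x'⟩ hq heq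
    simp only [coe_sigma, Set.mem_sigma_iff, coe_range, Set.mem_Iio, coe_filter,
      mem_univ, true_and, Set.mem_ofPred_eq] at hp hq
    simp only [Prod.mk.injEq, Fin.mk.injEq] at heq
    obtain ⟨h3, rfl⟩ := heq
    have := C_disj' act inv y hinv i j x hp.2 hq.2 h3
    subst this
    rfl

include inv in
theorem main (hinv : ∀ h v, act (inv h) (act h v) = v)
    (hinv2 : ∀ h, inv (inv h) = h) [Nonempty L] (N : ℕ) (h : (C act y N).Nonempty) :
    N ≤ Fintype.card V := by
  have h1 := sum_lower act inv y hinv hinv2 N h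
  have h2 := sum_upper act inv y hinv (N + 1)
  omega

end Count

end Q27.Flood
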